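import Pool.Agent.Helper66.DC.Goals3
import Pool.Agent.Helper56.DC.TX
import Pool.Agent.Helper15.DC.PDEC
import Pool.Agent.Helper28.Ball.Polar

/-!
Project DC3 (MP_628424_an), packet DIMC.
-/

set_option autoImplicit false

namespace Pool.Agent.Helper70.DC

open MvPolynomial Finset ComplexConjugate
open Pool.Agent.Helper69.DC Pool.Agent.Helper66.DC
open Pool.Agent.Helper56.DC (pr_add pr_C_mul pr_zero pr_sum)
open Pool.Agent.Helper15.DC (SJ card_SJ deg_SJ)
open Pool.Agent.Helper96.DC (exists_sol)

variable {m N : ℕ}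

/-- The linear map `φ ↦ φ ∘ c`. -/
noncomputable def Psi (c : Fin (N + 1) → MvPolynomial (Fin m) ℂ) :
    Module.Dual ℂ (Fin (N + 1) → ℂ) →ₗ[ℂ] MvPolynomial (Fin m) ℂ where
  toFun φ := ∑ k, φ (Pi.single k 1) • c k
  map_add' φ ψ := by
    rw [← sum_add_distrib]
    exact sum_congr rfl fun k _ => by rw [LinearMap.add_apply, add_smul]
  map_smul' a φ := by
    rw [smul_sum]
    exact sum_congr rfl fun k _ => by
      rw [LinearMap.smul_apply, smul_eq_mul, mul_smul]
      rfl

theorem eval_Psi (c : Fin (N + 1) → MvPolynomial (Fin m) ℂ)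
    (φ : Module.Dual ℂ (Fin (N + 1) → ℂ)) (y : Fin m → ℂ) :
    eval y (Psi c φ) = φ (ev c y) := by
  have h : ev c y = ∑ k, (eval y (c k)) • (Pi.single k (1 : ℂ) : Fin (N + 1) → ℂ) := by
    funext l
    rw [Finset.sum_apply, sum_eq_single l]
    · simp [ev]
    · intro k _ hk
      simp [hk.symm]
    · intro h
      exact absurd (mem_univ _) h
  rw [h, map_sum]
  show eval y (∑ k, φ (Pi.single k 1) • c k) = _
  rw [map_sum]
  refine sum_congr rfl fun k _ => ?_
  rw [smul_eval, map_smul, smul_eq_mul, mul_comm]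

/-- The functional `x ↦ hf x u`. -/
noncomputable def hfl (u : Fin (N + 1) → ℂ) : Module.Dual ℂ (Fin (N + 1) → ℂ) where
  toFun x := hf x u
  map_add' x y := by
    unfold hf
    simp only [Pi.add_apply, add_mul, sum_add_distrib]
    ring
  map_smul' a x := by
    unfold hf
    simp only [Pi.smul_apply, smul_eq_mul, RingHom.id_apply, mul_sub, mul_sum, mul_assoc]

theorem Psi_hfl (c : Fin (N + 1) → MvPolynomial (Fin m) ℂ) (u : Fin (N + 1) → ℂ) :
    Psi c (hfl u) = hfc c u := by
  show ∑ k, hf (Pi.single k 1) u • c k = _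
  rw [Fin.sum_univ_succ]
  have h0 : hf (Pi.single (0 : Fin (N + 1)) (1 : ℂ)) u = conj (u 0) := by
    unfold hf
    rw [Pi.single_eq_same, one_mul, sum_eq_zero, sub_zero]
    intro j _
    rw [Pi.single_eq_of_ne (Fin.succ_ne_zero j), zero_mul]
  have h1 : ∀ j : Fin N, hf (Pi.single j.succ (1 : ℂ)) u = - conj (u j.succ) := by
    intro j
    unfold hf
    rw [Pi.single_eq_of_ne (Fin.succ_ne_zero j).symm, zero_mul, zero_sub, sum_eq_single j]
    · rw [Pi.single_eq_same, one_mul]
    · intro l _ hl
      rw [Pi.single_eq_of_ne (fun h => hl (Fin.succ_injective _ h)), zero_mul]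
    · intro h
      exact absurd (mem_univ _) h
  unfold hfc
  rw [h0, MvPolynomial.smul_eq_C_mul, sub_eq_add_neg, ← sum_neg_distrib]
  refine congrArg₂ (· + ·) rfl (sum_congr rfl fun j _ => ?_)
  rw [h1, MvPolynomial.smul_eq_C_mul, map_neg, neg_mul]

theorem hf_conj (x y : Fin (N + 1) → ℂ) : hf x y = conj (hf y x) := by
  unfold hf
  rw [map_sub, map_mul, map_sum, Complex.conj_conj, mul_comm]
  congr 1
  exact sum_congr rfl fun j _ => by rw [map_mul, Complex.conj_conj, mul_comm]

/-- The operator exists. -/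
theorem exP (E : ℕ) (A0 : Fin (N + 1) → ℂ) (c : Fin (N + 1) → MvPolynomial (Fin m) ℂ)
    (hA0 : A0 ≠ 0)
    (hr : Module.finrank ℂ (Submodule.span ℂ (insert A0 (Set.range (ev c)))) ≤
      (m + E).choose m) :
    ∃ P : MvPolynomial (Fin m) (MvPolynomial (Fin m) ℂ), P ≠ 0 ∧ P.totalDegree ≤ E ∧
      ∀ u, hf u A0 = 0 → pr P (tay1 (hfc c u)) = 0 := by
  classical
  set V := Submodule.span ℂ (insert A0 (Set.range (ev c))) with hV
  have hA0V : A0 ∈ V := Submodule.subset_span (Set.mem_insert _ _)
  set K := (Submodule.span ℂ {A0}).dualAnnihilator with hK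
  have hVK : V.dualAnnihilator ≤ K := by
    apply Submodule.dualAnnihilator_anti
    rw [Submodule.span_singleton_le_iff_mem]
    exact hA0V
  have hfK : Module.finrank ℂ K = N := by
    have h := Subspace.finrank_add_finrank_dualAnnihilator_eq (Submodule.span ℂ {A0})
    rw [finrank_span_singleton hA0, Module.finrank_fin_fun] at h
    have h' : 1 + Module.finrank ℂ K = N + 1 := h
    omega
  have hfV := Subspace.finrank_add_finrank_dualAnnihilator_eq V
  rw [Module.finrank_fin_fun] at hfV
  set Ψ := (Psi c).domRestrict K with hΨ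
  have hker : (V.dualAnnihilator).comap K.subtype ≤ LinearMap.ker Ψ := by
    intro φ hφ
    rw [LinearMap.mem_ker]
    apply MvPolynomial.funext
    intro y
    show eval y (Psi c φ.1) = _
    rw [eval_Psi, map_zero]
    rw [Submodule.mem_comap, Submodule.mem_dualAnnihilator] at hφ
    exact hφ _ (Submodule.subset_span (Set.mem_insert_of_mem _ ⟨y, rfl⟩))
  have hk1 : Module.finrank ℂ V.dualAnnihilator ≤ Module.finrank ℂ (LinearMap.ker Ψ) := by
    rw [← (Submodule.comapSubtypeEquivOfLe hVK).finrank_eq]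
    exact Submodule.finrank_mono hker
  have hrn := Ψ.finrank_range_add_finrank_ker
  rw [hfK] at hrn
  have hlt : Module.finrank ℂ (LinearMap.range Ψ) < (m + E).choose m := by
    have h1 : 1 ≤ Module.finrank ℂ V := by
      have := Submodule.finrank_mono (show Submodule.span ℂ {A0} ≤ V by
        rw [Submodule.span_singleton_le_iff_mem]
        exact hA0V)
      rwa [finrank_span_singleton hA0] at this
    omega
  set W := LinearMap.range Ψ with hW
  set b := Module.finBasis ℂ W with hb
  have hcard : Fintype.card (Fin (Module.finrank ℂ W)) < Fintype.card (SJ m E) := by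
    rw [Fintype.card_fin, Fintype.card_coe, card_SJ]
    exact hlt
  obtain ⟨v, hv0, hv⟩ := exists_sol hcard (fun k (α : SJ m E) =>
    ((∏ i, (α.1 i).factorial : ℕ) : MvPolynomial (Fin m) ℂ) *
      coeff α.1 (tay1 (b k : MvPolynomial (Fin m) ℂ)))
  set P : MvPolynomial (Fin m) (MvPolynomial (Fin m) ℂ) :=
    ∑ α : SJ m E, monomial α.1 (v α) with hP
  have hcoef : ∀ α : SJ m E, coeff α.1 P = v α := by
    intro α
    rw [hP, coeff_sum, sum_eq_single α]
    · rw [coeff_monomial, if_pos rfl]
    · intro β _ hβ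
      rw [coeff_monomial, if_neg]
      intro h
      exact hβ (Subtype.ext h)
    · intro h
      exact absurd (mem_univ _) h
  have hsupp : P.support ⊆ SJ m E := by
    intro α hα
    by_contra hc
    rw [mem_support_iff] at hα
    apply hα
    rw [hP, coeff_sum]
    refine sum_eq_zero fun β _ => ?_
    rw [coeff_monomial, if_neg]
    intro h
    apply hc
    rw [← h]
    exact β.2
  have hpr : ∀ G : MvPolynomial (Fin m) (MvPolynomial (Fin m) ℂ), pr P G =
      ∑ α : SJ m E, v α * (((∏ i, (α.1 i).factorial : ℕ) : MvPolynomial (Fin m) ℂ) *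
        coeff α.1 G) := by
    intro G
    unfold pr
    rw [sum_subset hsupp]
    · rw [← sum_coe_sort (SJ m E)]
      refine sum_congr rfl fun α _ => ?_
      rw [hcoef, mul_assoc]
    · intro α _ hα
      rw [mem_support_iff, not_not] at hα
      rw [hα, zero_mul, zero_mul]
  refine ⟨P, ?_, ?_, ?_⟩
  · intro h0
    apply hv0
    funext α
    rw [← hcoef α, h0, coeff_zero]
    rfl
  · rw [hP]
    refine totalDegree_finsetSum_le fun α _ => ?_
    refine (totalDegree_monomial_le _ _).trans ?_
    rw [Finsupp.sum_fintype _ _ (fun _ => rfl)]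
    exact deg_SJ α.2
  · intro u hu
    have hmem : hfl u ∈ K := by
      rw [hK, Submodule.mem_dualAnnihilator]
      intro w hw
      rw [Submodule.mem_span_singleton] at hw
      obtain ⟨a, rfl⟩ := hw
      rw [map_smul]
      have : hfl u A0 = 0 := by
        show hf A0 u = 0
        rw [hf_conj, hu, map_zero]
      rw [this, smul_zero]
    have hWm : hfc c u ∈ W := by
      rw [← Psi_hfl]
      exact ⟨⟨hfl u, hmem⟩, rfl⟩
    have hbas : ∀ k, pr P (tay1 (b k : MvPolynomial (Fin m) ℂ)) = 0 := by
      intro k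
      rw [hpr]
      exact hv k
    have hrep := b.sum_repr ⟨hfc c u, hWm⟩
    have hrep2 : hfc c u = ∑ k, (b.repr ⟨hfc c u, hWm⟩ k) • (b k : MvPolynomial (Fin m) ℂ) := by
      have := congrArg Subtype.val hrep
      rw [Submodule.coe_sum] at this
      exact this.symm
    rw [hrep2, map_sum, pr_sum]
    refine sum_eq_zero fun k _ => ?_
    rw [map_smul]
    have : ∀ (a : ℂ) (G : MvPolynomial (Fin m) (MvPolynomial (Fin m) ℂ)),
        a • G = C (C a) * G := by
      intro a G
      rw [← smul_eq_C_mul]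
      rw [← algebraMap_smul (MvPolynomial (Fin m) ℂ) a G]
      rfl
    rw [this, pr_C_mul, hbas, mul_zero]

/-- The polynomial `(w, β) ↦ eval β (ev2 w S)`. -/
noncomputable def flat (S : MvPolynomial (Fin m) (MvPolynomial (Fin m) ℂ)) :
    MvPolynomial (Fin m ⊕ Fin m) ℂ := (sumAlgEquiv ℂ (Fin m) (Fin m)).symm S

theorem eval_flat (S : MvPolynomial (Fin m) (MvPolynomial (Fin m) ℂ)) (w β : Fin m → ℂ) :
    eval (Sum.elim w β) (flat S) = eval β (ev2 w S) := by
  have h : (eval (Sum.elim w β)).comp
      ((sumAlgEquiv ℂ (Fin m) (Fin m)).symm : _ →ₐ[ℂ] _).toRingHom =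
      (eval β).comp (eval (fun i => (C (w i) : MvPolynomial (Fin m) ℂ))) := by
    apply MvPolynomial.ringHom_ext
    · intro p
      show eval (Sum.elim w β) ((sumAlgEquiv ℂ (Fin m) (Fin m)).symm (C p)) =
        eval β (eval (fun i => (C (w i) : MvPolynomial (Fin m) ℂ)) (C p))
      rw [eval_C]
      induction p using MvPolynomial.induction_on with
      | C a => simp
      | add p q hp hq => simp only [map_add, hp, hq]
      | mul_X p i hp => simp only [map_mul, hp]; simp
    · intro i
      show eval (Sum.elim w β) ((sumAlgEquiv ℂ (Fin m) (Fin m)).symm (X i)) =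
        eval β (eval (fun i => (C (w i) : MvPolynomial (Fin m) ℂ)) (X i))
      simp
  exact RingHom.congr_fun h S

theorem flat_eq_zero {S : MvPolynomial (Fin m) (MvPolynomial (Fin m) ℂ)} (h : flat S = 0) :
    S = 0 := by
  have := congrArg (sumAlgEquiv ℂ (Fin m) (Fin m)) h
  unfold flat at this
  rw [AlgEquiv.apply_symm_apply, map_zero] at this
  exact this

theorem ev2_smul {J : ℕ} {S : MvPolynomial (Fin m) (MvPolynomial (Fin m) ℂ)}
    (hS : S.IsHomogeneous J) (w : Fin m → ℂ) (a : ℂ) :
    ev2 (fun i => a * w i) S = C (a ^ J) * ev2 w S := by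
  unfold ev2
  rw [eval_eq', eval_eq', mul_sum]
  refine sum_congr rfl fun α hα => ?_
  have hdeg : ∑ i, α i = J := by
    have h1 := hS (mem_support_iff.1 hα)
    rw [← h1, Finsupp.weight_apply, Finsupp.sum_fintype _ _ (fun _ => by simp)]
    simp
  have h2 : ∏ i, (C (a * w i) : MvPolynomial (Fin m) ℂ) ^ α i =
      C (a ^ J) * ∏ i, (C (w i)) ^ α i := by
    rw [← hdeg, ← prod_pow_eq_pow_sum, map_prod, ← prod_mul_distrib]
    exact prod_congr rfl fun i _ => by rw [map_mul, mul_pow, map_pow]
  rw [h2]
  ring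

/-- A polynomial vanishing near a point is zero. -/
theorem zero_of_near {σ : Type} [Fintype σ] (T : MvPolynomial σ ℂ) (x : σ → ℂ)
    (h : ∀ᶠ y in nhds x, eval y T = 0) : T = 0 := by
  rw [Metric.eventually_nhds_iff_ball] at h
  obtain ⟨ε, hε, h⟩ := h
  apply MvPolynomial.funext_set (fun i => Metric.ball (x i) ε)
  · intro i
    apply Set.Infinite.mono (s := Set.range fun n : ℕ => x i + ((ε / (n + 2) : ℝ) : ℂ))
    · rintro _ ⟨n, rfl⟩
      rw [Metric.mem_ball, dist_eq_norm, add_sub_cancel_left, Complex.norm_real,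
        Real.norm_of_nonneg (by positivity)]
      rw [div_lt_iff₀ (by positivity)]
      nlinarith [(Nat.cast_nonneg n : (0 : ℝ) ≤ n)]
    · apply Set.infinite_range_of_injective
      intro a b hab
      have h1 := add_left_cancel hab
      have h2 : ε / ((a : ℝ) + 2) = ε / ((b : ℝ) + 2) := by exact_mod_cast h1
      rw [div_eq_div_iff (by positivity) (by positivity)] at h2
      have h3 := mul_left_cancel₀ hε.ne' h2
      have h4 : (a : ℝ) = b := by linarith
      exact_mod_cast h4
  · intro y hy
    rw [map_zero]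
    apply h
    rw [Metric.mem_ball, dist_pi_lt_iff hε]
    intro i
    exact hy i (Set.mem_univ _)

theorem h_dimc : Pool.Agent.Helper66.DC.J_DIMC := by
  intro m N E A0 c hA0 horth hdvd hr
  obtain ⟨P, hP0, hPE, hPu⟩ := exP E A0 c hA0 hr
  set J := P.totalDegree with hJ
  set S := homogeneousComponent J P with hS
  have hS0 : S ≠ 0 := by
    intro h
    have hne : P.support.Nonempty := by
      rw [Finset.nonempty_iff_ne_empty]
      intro h0
      exact hP0 (MvPolynomial.support_eq_empty.1 h0)
    obtain ⟨s, hs, hs2⟩ := Finset.exists_mem_eq_sup P.support hne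
      (fun s : Fin m →₀ ℕ => s.sum fun _ e => e)
    have h1 := coeff_homogeneousComponent P.totalDegree P s
    rw [← hJ, ← hS, h, if_pos] at h1
    · rw [MvPolynomial.coeff_zero] at h1
      exact (MvPolynomial.mem_support_iff.1 hs) h1.symm
    · exact hs2.symm
  have hShom : S.IsHomogeneous J := homogeneousComponent_isHomogeneous J P
  -- good directions
  have good : ∀ (v β : Fin m → ℂ), (1 ≤ J → 1 + ∑ i, β i * conj (v i) = 0) →
      eval β (ev2 (fun i => conj (v i)) S) ≠ 0 → hf (ev c v) (ev c v) = 0 := by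
    intro v β hβ hT
    have hz : hfc c (ev c v) = 0 := by
      refine Pool.Agent.Helper56.DC.h_tx m J β v P (hfc c (ev c v)) le_rfl
        (hPu _ (horth v)) ?_ hT
      rcases Nat.eq_zero_or_pos J with h0 | h0
      · rw [h0, pow_zero]
        exact one_dvd _
      · have hxp : xp β v = 1 + lf v := by
          unfold xp lf
          have h1 := hβ h0
          simp only [mul_sub, sum_sub_distrib]
          have h2 : ∑ i, (C (conj (v i)) : MvPolynomial (Fin m) ℂ) * C (β i) = - 1 := by
            have : ∑ i, (C (conj (v i)) : MvPolynomial (Fin m) ℂ) * C (β i) =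
                C (∑ i, β i * conj (v i)) := by
              rw [map_sum]
              exact sum_congr rfl fun i _ => by rw [map_mul, mul_comm]
            rw [this, eq_neg_of_add_eq_zero_right h1, map_neg, map_one]
          rw [h2]
          ring
        rw [hxp]
        exact (pow_dvd_pow _ hPE).trans (hdvd v)
    have h1 : hf (ev c v) (ev c v) = eval v (hfc c (ev c v)) := by
      rw [← Psi_hfl, eval_Psi]
      rfl
    rw [h1, hz, map_zero]
  intro v₀
  by_contra hv₀
  rcases Nat.eq_zero_or_pos J with h0 | h0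
  · -- degree zero
    apply hS0
    apply flat_eq_zero
    apply MvPolynomial.funext
    intro x
    rw [map_zero]
    by_contra hx
    have hx2 : x = Sum.elim (fun i => x (Sum.inl i)) (fun i => x (Sum.inr i)) := by
      funext s
      rcases s with i | i <;> rfl
    rw [hx2, eval_flat] at hx
    have h3 : ev2 (fun i => x (Sum.inl i)) S = ev2 (fun i => conj (v₀ i)) S := by
      have e1 := ev2_smul hShom (fun i => x (Sum.inl i)) 0
      have e2 := ev2_smul hShom (fun i => conj (v₀ i)) 0
      rw [h0, pow_zero, map_one, one_mul] at e1 e2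
      rw [← e1, ← e2]
      simp only [zero_mul]
    rw [h3] at hx
    exact hv₀ (good v₀ _ (fun h => absurd h (by omega)) hx)
  · -- positive degree
    have hcont : Continuous fun v : Fin m → ℂ => hf (ev c v) (ev c v) := by
      unfold hf ev
      have hk : ∀ k, Continuous fun v : Fin m → ℂ => eval v (c k) := fun k =>
        MvPolynomial.continuous_eval (c k)
      refine ((hk 0).mul (Complex.continuous_conj.comp (hk 0))).sub ?_
      exact continuous_finsetSum _ fun j _ =>
        (hk j.succ).mul (Complex.continuous_conj.comp (hk j.succ))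
    have hm : Nonempty (Fin m) := by
      by_contra hm
      rw [not_nonempty_iff] at hm
      have : P.totalDegree = 0 := by
        rw [MvPolynomial.totalDegree_eq_zero_iff]
        intro s _ i
        exact (hm.false i).elim
      omega
    obtain ⟨i₀⟩ := hm
    have hopen : IsOpen {v : Fin m → ℂ | hf (ev c v) (ev c v) ≠ 0} :=
      isOpen_ne_fun hcont continuous_const
    -- a nonzero point
    obtain ⟨v₁, hv₁, hv₁0⟩ : ∃ v₁ : Fin m → ℂ, hf (ev c v₁) (ev c v₁) ≠ 0 ∧ v₁ ≠ 0 := by
      have : Nonempty (Fin m) := ⟨i₀⟩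
      have hd : Dense ({0}ᶜ : Set (Fin m → ℂ)) := dense_compl_singleton 0
      obtain ⟨v, hv1, hv2⟩ := hd.inter_open_nonempty _ hopen ⟨v₀, hv₀⟩
      exact ⟨v, hv1, hv2⟩
    obtain ⟨i₁, hi₁⟩ : ∃ i, v₁ i ≠ 0 := by
      by_contra hc
      push Not at hc
      exact hv₁0 (funext hc)
    set w₁ : Fin m → ℂ := fun i => conj (v₁ i) with hw₁
    set β₁ : Fin m → ℂ := Pi.single i₁ (-(w₁ i₁)⁻¹) with hβ₁
    have hwi : w₁ i₁ ≠ 0 := by
      rw [hw₁]
      simpa using hi₁
    set sf : (Fin m ⊕ Fin m → ℂ) → ℂ := fun x => ∑ i, x (Sum.inr i) * x (Sum.inl i) with hsf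
    set x₁ : Fin m ⊕ Fin m → ℂ := Sum.elim w₁ β₁ with hx₁
    have hs₁ : sf x₁ = -1 := by
      rw [hsf]
      simp only [hx₁, Sum.elim_inr, Sum.elim_inl]
      rw [sum_eq_single i₁]
      · rw [hβ₁, Pi.single_eq_same, neg_mul, inv_mul_cancel₀ hwi]
      · intro j _ hj
        rw [hβ₁, Pi.single_eq_of_ne hj, zero_mul]
      · intro h
        exact absurd (mem_univ _) h
    have hsc : Continuous sf := by
      rw [hsf]
      exact continuous_finsetSum _ fun j _ =>
        (continuous_apply (Sum.inr j)).mul (continuous_apply (Sum.inl j))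
    set Φ : (Fin m ⊕ Fin m → ℂ) → Fin m → ℂ := fun x i => conj (-(sf x)⁻¹ * x (Sum.inl i))
      with hΦ
    have hΦ₁ : Φ x₁ = v₁ := by
      funext i
      rw [hΦ]
      simp only
      rw [hs₁, hx₁, Sum.elim_inl, hw₁]
      simp
    have hs0 : sf x₁ ≠ 0 := by
      rw [hs₁]
      norm_num
    have hΦc : ContinuousAt Φ x₁ := by
      rw [continuousAt_pi]
      intro i
      refine Complex.continuous_conj.continuousAt.comp ?_
      exact ((hsc.continuousAt.inv₀ hs0).neg).mul (continuous_apply (Sum.inl i)).continuousAt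
    have hev1 : ∀ᶠ x in nhds x₁, hf (ev c (Φ x)) (ev c (Φ x)) ≠ 0 := by
      apply hΦc.eventually (p := fun v => hf (ev c v) (ev c v) ≠ 0)
      rw [hΦ₁]
      exact hopen.mem_nhds hv₁
    have hev2 : ∀ᶠ x in nhds x₁, sf x ≠ 0 := hsc.continuousAt.eventually_ne hs0
    apply hS0
    apply flat_eq_zero
    apply zero_of_near _ x₁
    filter_upwards [hev1, hev2] with x hx1 hx2
    by_contra hx
    apply hx1
    have hxe : x = Sum.elim (fun i => x (Sum.inl i)) (fun i => x (Sum.inr i)) := by
      funext s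
      rcases s with i | i <;> rfl
    have hcj : (fun i => conj (Φ x i)) = fun i => -(sf x)⁻¹ * x (Sum.inl i) := by
      funext i
      rw [hΦ]
      simp only
      rw [Complex.conj_conj]
    refine good (Φ x) (fun i => x (Sum.inr i)) (fun _ => ?_) ?_
    · have : ∀ i, x (Sum.inr i) * conj (Φ x i) =
          -(sf x)⁻¹ * (x (Sum.inr i) * x (Sum.inl i)) := by
        intro i
        rw [congrFun hcj i]
        ring
      rw [sum_congr rfl fun i _ => this i, ← mul_sum]
      show 1 + -(sf x)⁻¹ * sf x = 0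
      rw [neg_mul, inv_mul_cancel₀ hx2]
      ring
    · rw [hcj, ev2_smul hShom, map_mul, eval_C]
      apply mul_ne_zero
      · exact pow_ne_zero _ (neg_ne_zero.2 (inv_ne_zero hx2))
      · rw [← eval_flat, ← hxe]
        exact hx

end Pool.Agent.Helper70.DC
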